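import Mathlib
import Pool.Agent.DigitPowers.Block

/-! Energy of digit-restricted residues against an interval. -/

set_option autoImplicit false

namespace Pool.Agent.DP2

open Finset Pool.Agent.DigitPowers

/-- residues below `q^k` with all `k` digits in `D`, prime to `q`. -/
def good (D : Finset ℕ) (q k : ℕ) : Finset ℕ :=
  (range (q ^ k)).filter (fun x => lowOK D q k x ∧ ¬ q ∣ x)

lemma prop_eq {Q h h' g g' x x' y' : ℕ} (hx : Nat.Coprime Q x)
    (h1 : h * x' ≡ h' * x [MOD Q]) (h2 : g * y' ≡ g' * x [MOD Q]) (hxy : x' ≡ y' [MOD Q])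
    (b1 : h * g' < Q) (b2 : g * h' < Q) : h * g' = g * h' := by
  have e1 : x * (h * g') ≡ x * (g * h') [MOD Q] := by
    calc x * (h * g') = h * (g' * x) := by ring
      _ ≡ h * (g * y') [MOD Q] := Nat.ModEq.mul_left h h2.symm
      _ ≡ h * (g * x') [MOD Q] := Nat.ModEq.mul_left h (Nat.ModEq.mul_left g hxy.symm)
      _ = g * (h * x') := by ring
      _ ≡ g * (h' * x) [MOD Q] := Nat.ModEq.mul_left g h1
      _ = x * (g * h') := by ring
  have e2 := Nat.ModEq.cancel_left_of_coprime hx e1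
  exact Nat.ModEq.eq_of_lt_of_lt e2 b1 b2

lemma low_split {D : Finset ℕ} {q k a x : ℕ} (ha : a ≤ k) (h : lowOK D q k x) :
    lowOK D q a x ∧ lowOK D q (k - a) (x / q ^ a) := by
  have e : a + (k - a) = k := by omega
  exact (lowOK_add D q a (k - a) x).mp (by rw [e]; exact h)

lemma cop_pow {q n x : ℕ} (hq : q.Prime) (hx : ¬ q ∣ x) : Nat.Coprime (q ^ n) x :=
  Nat.Coprime.pow_left n ((Nat.Prime.coprime_iff_not_dvd hq).mpr hx)

open scoped Classical in
lemma pairs_card_le (D : Finset ℕ) (q : ℕ) (hq : q.Prime) (k e i : ℕ) (hi : 2 * i + e ≤ k) :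
    ((good D q k ×ˢ good D q k).filter (fun t => ∃ h h', 1 ≤ h' ∧ h' ≤ h ∧ h < q ^ i ∧ ¬ q ∣ h ∧
      h * t.2 ≡ h' * t.1 [MOD q ^ (k - e)])).card ≤ D.card ^ (k + 2 * i + e) := by
  set L := (range (q ^ (2 * i))).filter (fun x => lowOK D q (2 * i) x) with hL
  set M := (range (q ^ (k - 2 * i))).filter (fun x => lowOK D q (k - 2 * i) x) with hM
  set T := (range (q ^ e)).filter (fun x => lowOK D q e x) with hT
  have cL : L.card ≤ D.card ^ (2 * i) := card_lowOK D q hq.pos _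
  have cM : M.card ≤ D.card ^ (k - 2 * i) := card_lowOK D q hq.pos _
  have cT : T.card ≤ D.card ^ e := card_lowOK D q hq.pos _
  have key : ((good D q k ×ˢ good D q k).filter (fun t => ∃ h h', 1 ≤ h' ∧ h' ≤ h ∧ h < q ^ i ∧
      ¬ q ∣ h ∧ h * t.2 ≡ h' * t.1 [MOD q ^ (k - e)])).card ≤
      ((L ×ˢ L) ×ˢ (M ×ˢ T)).card := by
    refine card_le_card_of_injOn (fun t => ((t.1 % q ^ (2 * i), t.2 % q ^ (2 * i)),
      (t.1 / q ^ (2 * i), t.2 / q ^ (k - e)))) ?_ ?_
    · rintro ⟨x, x'⟩ ht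
      rw [mem_coe, mem_filter, mem_product] at ht
      obtain ⟨⟨hx, hx'⟩, -⟩ := ht
      simp only [good, mem_filter, mem_range] at hx hx'
      have s1 := low_split (a := 2 * i) (by omega) hx.2.1
      have s2 := low_split (a := 2 * i) (by omega) hx'.2.1
      have s3 := low_split (a := k - e) (by omega) hx'.2.1
      rw [mem_coe]
      simp only [mem_product, hL, hM, hT, mem_filter, mem_range]
      refine ⟨⟨⟨Nat.mod_lt _ (pow_pos hq.pos _), (lowOK_mod D q _ x hq.pos).mpr s1.1⟩,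
        ⟨Nat.mod_lt _ (pow_pos hq.pos _), (lowOK_mod D q _ x' hq.pos).mpr s2.1⟩⟩,
        ⟨?_, s1.2⟩, ⟨?_, ?_⟩⟩
      · rw [Nat.div_lt_iff_lt_mul (pow_pos hq.pos _), ← pow_add,
          show k - 2 * i + 2 * i = k by omega]
        exact hx.1
      · rw [Nat.div_lt_iff_lt_mul (pow_pos hq.pos _), ← pow_add,
          show e + (k - e) = k by omega]
        exact hx'.1
      · have := s3.2
        rwa [show k - (k - e) = e by omega] at this
    · rintro ⟨x, x'⟩ ht ⟨y, y'⟩ hs hEq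
      rw [mem_coe, mem_filter, mem_product] at ht hs
      obtain ⟨⟨hx, hx'⟩, h, h', a1, a2, a3, a4, a5⟩ := ht
      obtain ⟨⟨hy, hy'⟩, g, g', b1, b2, b3, b4, b5⟩ := hs
      simp only [good, mem_filter, mem_range] at hx hx' hy hy'
      simp only [Prod.mk.injEq] at hEq
      obtain ⟨⟨e1, e2⟩, e3, e4⟩ := hEq
      have hxy : x = y := by
        rw [← Nat.div_add_mod x (q ^ (2 * i)), ← Nat.div_add_mod y (q ^ (2 * i)), e1, e3]
      subst hxy
      simp only at a5 b5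
      have hdvd : q ^ (2 * i) ∣ q ^ (k - e) := pow_dvd_pow q (by omega)
      have h2i : q ^ i * q ^ i = q ^ (2 * i) := by rw [← pow_add]; congr 1; omega
      have hprop : h * g' = g * h' := by
        refine prop_eq (Q := q ^ (2 * i)) (x := x) (x' := x') (y' := y') (cop_pow hq hx.2.2)
          (a5.of_dvd hdvd) (b5.of_dvd hdvd) e2 ?_ ?_
        · rw [← h2i]; exact Nat.mul_lt_mul'' a3 (lt_of_le_of_lt b2 b3)
        · rw [← h2i]; exact Nat.mul_lt_mul'' b3 (lt_of_le_of_lt a2 a3)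
      have hK : (h * g) * x' ≡ (h * g) * y' [MOD q ^ (k - e)] := by
        calc (h * g) * x' = g * (h * x') := by ring
          _ ≡ g * (h' * x) [MOD q ^ (k - e)] := Nat.ModEq.mul_left g a5
          _ = (g * h') * x := by ring
          _ = (h * g') * x := by rw [hprop]
          _ = h * (g' * x) := by ring
          _ ≡ h * (g * y') [MOD q ^ (k - e)] := Nat.ModEq.mul_left h b5.symm
          _ = (h * g) * y' := by ring
      have hc : Nat.Coprime (q ^ (k - e)) (h * g) :=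
        Nat.Coprime.mul_right (cop_pow hq a4) (cop_pow hq b4)
      have hxy' : x' % q ^ (k - e) = y' % q ^ (k - e) := Nat.ModEq.cancel_left_of_coprime hc hK
      have : x' = y' := by
        rw [← Nat.div_add_mod x' (q ^ (k - e)), ← Nat.div_add_mod y' (q ^ (k - e)), hxy', e4]
      rw [this]
  refine key.trans ?_
  rw [card_product, card_product, card_product]
  calc L.card * L.card * (M.card * T.card)
      ≤ D.card ^ (2 * i) * D.card ^ (2 * i) * (D.card ^ (k - 2 * i) * D.card ^ e) := by gcongr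
    _ = D.card ^ (k + 2 * i + e) := by
        rw [← pow_add, ← pow_add, ← pow_add]
        congr 1
        omega

open scoped Classical in
lemma sols_card_le (q : ℕ) (hq : q.Prime) (k j x x' : ℕ) (hj : 2 * j ≤ k) (hx : ¬ q ∣ x) :
    (((Ico 1 (q ^ j)) ×ˢ (Ico 1 (q ^ j))).filter
      (fun t => t.2 ≤ t.1 ∧ t.1 * x' ≡ t.2 * x [MOD q ^ k])).card ≤
      ∑ I ∈ Ico 1 (j + 1), (if ∃ h h', 1 ≤ h' ∧ h' ≤ h ∧ h < q ^ I ∧
        h * x' ≡ h' * x [MOD q ^ k] then q ^ (j + 1 - I) else 0) := by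
  have hjj : q ^ j * q ^ j ≤ q ^ k := by
    rw [← pow_add]; exact Nat.pow_le_pow_right hq.pos (by omega)
  have hjk : q ^ j ≤ q ^ k := Nat.pow_le_pow_right hq.pos (by omega)
  by_cases hex : ∃ h, ∃ h', 1 ≤ h' ∧ h' ≤ h ∧ h < q ^ j ∧ h * x' ≡ h' * x [MOD q ^ k]
  · set h0 := Nat.find hex with hh0
    obtain ⟨h0', c1, c2, c3, c4⟩ := Nat.find_spec hex
    rw [← hh0] at c2 c3 c4
    have hmin : ∀ m, m < h0 → ¬ ∃ h', 1 ≤ h' ∧ h' ≤ m ∧ m < q ^ j ∧ m * x' ≡ h' * x [MOD q ^ k] :=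
      fun m hm => Nat.find_min hex hm
    have hmul : ∀ h h' : ℕ, 1 ≤ h' → h' ≤ h → h < q ^ j → h * x' ≡ h' * x [MOD q ^ k] →
        h0 ∣ h := by
      intro h h' d1 d2 d3 d4
      have hprop : h * h0' = h0 * h' := by
        refine prop_eq (Q := q ^ k) (x := x) (x' := x') (y' := x') (cop_pow hq hx) d4 c4 rfl ?_ ?_
        · exact lt_of_lt_of_le (Nat.mul_lt_mul'' d3 (lt_of_le_of_lt c2 c3)) hjj
        · exact lt_of_lt_of_le (Nat.mul_lt_mul'' c3 (lt_of_le_of_lt d2 d3)) hjj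
      rw [Nat.dvd_iff_mod_eq_zero]
      by_contra hr
      set r := h % h0 with hr0
      set c := h / h0 with hc0
      have hdm : h = h0 * c + r := (Nat.div_add_mod h h0).symm
      have hrlt : r < h0 := Nat.mod_lt _ (by omega)
      have hrpos : 0 < r := Nat.pos_of_ne_zero hr
      -- `h' = c h0' + r'`
      have hgt : c * h0' < h' := by
        have : h0 * (c * h0') < h0 * h' := by
          rw [← hprop, hdm]
          nlinarith [Nat.mul_pos hrpos (show 0 < h0' by omega)]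
        exact Nat.lt_of_mul_lt_mul_left this
      obtain ⟨r', hr'⟩ : ∃ r', h' = c * h0' + r' := ⟨h' - c * h0', by omega⟩
      have hr'pos : 0 < r' := by omega
      have hrel : r * h0' = h0 * r' := by
        have : (h0 * c + r) * h0' = h0 * (c * h0' + r') := by rw [← hdm, ← hr']; exact hprop
        nlinarith [this]
      have hr'le : r' ≤ r := by
        have : h0 * r' ≤ h0 * r := by
          rw [← hrel, mul_comm h0 r]
          exact Nat.mul_le_mul_left _ c2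
        exact Nat.le_of_mul_le_mul_left this (by omega)
      refine hmin r hrlt ⟨r', hr'pos, hr'le, by omega, ?_⟩
      have t1 : h0 * c * x' + r * x' ≡ c * h0' * x + r' * x [MOD q ^ k] := by
        have := d4
        rw [hdm, hr', add_mul, add_mul] at this
        exact this
      have t2 : h0 * c * x' ≡ c * h0' * x [MOD q ^ k] := by
        calc h0 * c * x' = c * (h0 * x') := by ring
          _ ≡ c * (h0' * x) [MOD q ^ k] := Nat.ModEq.mul_left c c4
          _ = c * h0' * x := by ring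
      exact Nat.ModEq.add_left_cancel t2 t1
    have hcard : (((Ico 1 (q ^ j)) ×ˢ (Ico 1 (q ^ j))).filter
        (fun t => t.2 ≤ t.1 ∧ t.1 * x' ≡ t.2 * x [MOD q ^ k])).card ≤ q ^ j / h0 := by
      rw [← Nat.Ioc_filter_dvd_card_eq_div]
      refine card_le_card_of_injOn Prod.fst ?_ ?_
      · rintro ⟨h, h'⟩ ht
        rw [mem_coe, mem_filter, mem_product, mem_Ico, mem_Ico] at ht
        rw [mem_coe, mem_filter, mem_Ioc]
        obtain ⟨⟨⟨f1, f2⟩, f3, f4⟩, f5, f6⟩ := ht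
        simp only at *
        exact ⟨⟨by omega, by omega⟩, hmul h h' f3 f5 f2 f6⟩
      · rintro ⟨h, h'⟩ ht ⟨g, g'⟩ hs hEq
        rw [mem_coe, mem_filter, mem_product, mem_Ico, mem_Ico] at ht hs
        simp only at *
        subst hEq
        have e1 : x * h' ≡ x * g' [MOD q ^ k] := by
          rw [mul_comm x h', mul_comm x g']
          exact ht.2.2.symm.trans hs.2.2
        have e2 := Nat.ModEq.cancel_left_of_coprime (cop_pow hq hx) e1
        have e3 : h' = g' := Nat.ModEq.eq_of_lt_of_lt e2 (by omega) (by omega)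
        rw [e3]
    have hh0pos : h0 ≠ 0 := by omega
    set I0 := Nat.log q h0 + 1 with hI0
    have g1 : q ^ (I0 - 1) ≤ h0 := by
      rw [hI0, Nat.add_sub_cancel]
      exact Nat.pow_log_le_self q hh0pos
    have g2 : h0 < q ^ I0 := Nat.lt_pow_succ_log_self hq.one_lt h0
    have g3 : I0 ≤ j := by
      have : Nat.log q h0 < j := Nat.log_lt_of_lt_pow hh0pos c3
      omega
    have hdiv : q ^ j / h0 ≤ q ^ (j + 1 - I0) := by
      calc q ^ j / h0 ≤ q ^ j / q ^ (I0 - 1) := Nat.div_le_div_left g1 (pow_pos hq.pos _)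
        _ = q ^ (j - (I0 - 1)) := Nat.pow_div (by omega) hq.pos
        _ = q ^ (j + 1 - I0) := by congr 1; omega
    refine hcard.trans (hdiv.trans ?_)
    have hmem : I0 ∈ Ico 1 (j + 1) := by rw [mem_Ico]; omega
    refine le_trans (le_of_eq ?_) (single_le_sum (f := fun I => (if ∃ h h', 1 ≤ h' ∧ h' ≤ h ∧
      h < q ^ I ∧ h * x' ≡ h' * x [MOD q ^ k] then q ^ (j + 1 - I) else 0))
      (fun _ _ => Nat.zero_le _) hmem)
    rw [if_pos ⟨h0, h0', c1, c2, g2, c4⟩]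
  · have hempty : (((Ico 1 (q ^ j)) ×ˢ (Ico 1 (q ^ j))).filter
        (fun t => t.2 ≤ t.1 ∧ t.1 * x' ≡ t.2 * x [MOD q ^ k])) = ∅ := by
      rw [filter_eq_empty_iff]
      rintro ⟨h, h'⟩ ht ⟨h1, h2⟩
      rw [mem_product, mem_Ico, mem_Ico] at ht
      exact hex ⟨h, h', ht.2.1, h1, ht.1.2, h2⟩
    rw [hempty, card_empty]
    exact Nat.zero_le _

lemma exists_val (q : ℕ) (hq : q.Prime) (k I x x' : ℕ) (hIk : I ≤ k) (hx : ¬ q ∣ x)
    (hex : ∃ h h', 1 ≤ h' ∧ h' ≤ h ∧ h < q ^ I ∧ h * x' ≡ h' * x [MOD q ^ k]) :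
    ∃ e ∈ range I, ∃ h h', 1 ≤ h' ∧ h' ≤ h ∧ h < q ^ (I - e) ∧ ¬ q ∣ h ∧
      h * x' ≡ h' * x [MOD q ^ (k - e)] := by
  obtain ⟨h, h', a1, a2, a3, a4⟩ := hex
  obtain ⟨e, h1, b1, b2⟩ := Nat.exists_eq_pow_mul_and_not_dvd (show h ≠ 0 by omega) q
    hq.one_lt.ne'
  have hh1 : 1 ≤ h1 := by
    rcases Nat.eq_zero_or_pos h1 with h0 | h0
    · rw [h0] at b1; exact absurd (dvd_zero q) b1
    · exact h0
  have heI : e < I := by
    have : q ^ e < q ^ I := by
      refine lt_of_le_of_lt ?_ a3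
      rw [b2]
      exact Nat.le_mul_of_pos_right _ hh1
    exact (Nat.pow_lt_pow_iff_right hq.one_lt).mp this
  have hpe : 0 < q ^ e := pow_pos hq.pos e
  have hd : q ^ e ∣ h' := by
    have t1 : h * x' ≡ h' * x [MOD q ^ e] := a4.of_dvd (pow_dvd_pow q (by omega))
    have t2 : q ^ e ∣ h * x' := by rw [b2, mul_assoc]; exact Dvd.intro _ rfl
    have t3 : q ^ e ∣ h' * x := (Nat.ModEq.dvd_iff t1 dvd_rfl).mp t2
    exact (cop_pow hq hx).dvd_of_dvd_mul_right t3
  obtain ⟨h1', b3⟩ := hd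
  refine ⟨e, by rw [mem_range]; exact heI, h1, h1', ?_, ?_, ?_, b1, ?_⟩
  · rcases Nat.eq_zero_or_pos h1' with h0 | h0
    · rw [h0, mul_zero] at b3; omega
    · exact h0
  · rw [b2, b3] at a2
    exact Nat.le_of_mul_le_mul_left a2 hpe
  · rw [b2, show I = e + (I - e) by omega, pow_add] at a3
    exact Nat.lt_of_mul_lt_mul_left a3
  · have t : q ^ e * (h1 * x') ≡ q ^ e * (h1' * x) [MOD q ^ e * q ^ (k - e)] := by
      rw [← pow_add, show e + (k - e) = k by omega, ← mul_assoc, ← mul_assoc, ← b2, ← b3]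
      exact a4
    exact Nat.ModEq.mul_left_cancel' hpe.ne' t

lemma geo_desc (d n : ℕ) (hd : 2 ≤ d) (m : ℕ) (hm : m ≤ n) :
    (∑ e ∈ range m, d ^ (n - e)) + 2 * d ^ (n - m) ≤ 2 * d ^ n := by
  induction m with
  | zero => simp
  | succ m ih =>
    have ih' := ih (by omega)
    rw [sum_range_succ]
    have e1 : d ^ (n - m) = d * d ^ (n - (m + 1)) := by
      rw [← pow_succ']; congr 1; omega
    have e2 : 2 * d ^ (n - (m + 1)) ≤ d ^ (n - m) := by
      rw [e1]; exact Nat.mul_le_mul_right _ hd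
    omega

lemma geo_sum (d q : ℕ) (hqd : q + 1 ≤ d ^ 2) (j : ℕ) :
    ∑ I ∈ Ico 1 (j + 1), q ^ (j + 1 - I) * d ^ (2 * I) ≤ q * (q + 1) * d ^ (2 * j) := by
  induction j with
  | zero => simp
  | succ j ih =>
    rw [sum_Ico_succ_top (by omega)]
    have e1 : ∑ I ∈ Ico 1 (j + 1), q ^ (j + 1 + 1 - I) * d ^ (2 * I) =
        q * ∑ I ∈ Ico 1 (j + 1), q ^ (j + 1 - I) * d ^ (2 * I) := by
      rw [mul_sum]
      refine sum_congr rfl fun I hI => ?_
      rw [mem_Ico] at hI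
      rw [show j + 1 + 1 - I = (j + 1 - I) + 1 by omega, pow_succ]
      ring
    rw [e1, show j + 1 + 1 - (j + 1) = 1 by omega, pow_one]
    have e2 : q * (∑ I ∈ Ico 1 (j + 1), q ^ (j + 1 - I) * d ^ (2 * I)) ≤
        q * (q * (q + 1) * d ^ (2 * j)) := Nat.mul_le_mul_left _ ih
    have e3 : d ^ (2 * (j + 1)) = d ^ 2 * d ^ (2 * j) := by ring
    rw [e3]
    have e4 : q * (q * (q + 1) * d ^ (2 * j)) ≤ q * q * (d ^ 2 * d ^ (2 * j)) := by
      calc q * (q * (q + 1) * d ^ (2 * j)) = q * q * ((q + 1) * d ^ (2 * j)) := by ring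
        _ ≤ q * q * (d ^ 2 * d ^ (2 * j)) :=
          Nat.mul_le_mul_left _ (Nat.mul_le_mul_right _ hqd)
    calc _ ≤ q * q * (d ^ 2 * d ^ (2 * j)) + q * (d ^ 2 * d ^ (2 * j)) := by
          have := e2.trans e4
          exact Nat.add_le_add_right this _
      _ = q * (q + 1) * (d ^ 2 * d ^ (2 * j)) := by ring

open scoped Classical in
lemma exists_pairs_le (D : Finset ℕ) (q : ℕ) (hq : q.Prime) (hd2 : 2 ≤ D.card) (k I : ℕ)
    (hI : 1 ≤ I) (hIk : 2 * I ≤ k) :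
    ((good D q k ×ˢ good D q k).filter (fun t => ∃ h h', 1 ≤ h' ∧ h' ≤ h ∧ h < q ^ I ∧
      h * t.2 ≡ h' * t.1 [MOD q ^ k])).card ≤ 2 * D.card ^ (k + 2 * I) := by
  have hsub : (good D q k ×ˢ good D q k).filter (fun t => ∃ h h', 1 ≤ h' ∧ h' ≤ h ∧ h < q ^ I ∧
      h * t.2 ≡ h' * t.1 [MOD q ^ k]) ⊆ (range I).biUnion (fun e =>
      (good D q k ×ˢ good D q k).filter (fun t => ∃ h h', 1 ≤ h' ∧ h' ≤ h ∧ h < q ^ (I - e) ∧
      ¬ q ∣ h ∧ h * t.2 ≡ h' * t.1 [MOD q ^ (k - e)])) := by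
    rintro ⟨x, x'⟩ ht
    rw [mem_filter, mem_product] at ht
    obtain ⟨⟨hx, hx'⟩, hex⟩ := ht
    have hxq : ¬ q ∣ x := by
      simp only [good, mem_filter] at hx
      exact hx.2.2
    obtain ⟨e, he, hP⟩ := exists_val q hq k I x x' (by omega) hxq hex
    rw [mem_biUnion]
    exact ⟨e, he, mem_filter.mpr ⟨mem_product.mpr ⟨hx, hx'⟩, hP⟩⟩
  calc _ ≤ _ := card_le_card hsub
    _ ≤ ∑ e ∈ range I, ((good D q k ×ˢ good D q k).filter (fun t => ∃ h h', 1 ≤ h' ∧ h' ≤ h ∧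
        h < q ^ (I - e) ∧ ¬ q ∣ h ∧ h * t.2 ≡ h' * t.1 [MOD q ^ (k - e)])).card := card_biUnion_le
    _ ≤ ∑ e ∈ range I, D.card ^ ((k + 2 * I) - e) := by
        refine sum_le_sum fun e he => ?_
        rw [mem_range] at he
        refine (pairs_card_le D q hq k e (I - e) (by omega)).trans (le_of_eq ?_)
        congr 1
        omega
    _ ≤ 2 * D.card ^ (k + 2 * I) := by
        have := geo_desc D.card (k + 2 * I) hd2 I (by omega)
        omega

theorem energy_half (D : Finset ℕ) (q : ℕ) (hq : q.Prime) (hd : q + 1 ≤ D.card ^ 2)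
    (k j : ℕ) (hj : 2 * j ≤ k) :
    ((((Ico 1 (q ^ j)) ×ˢ (Ico 1 (q ^ j))) ×ˢ (good D q k ×ˢ good D q k)).filter
      (fun t => t.1.2 ≤ t.1.1 ∧ t.1.1 * t.2.2 ≡ t.1.2 * t.2.1 [MOD q ^ k])).card ≤
      2 * q * (q + 1) * D.card ^ (k + 2 * j) := by
  classical
  have hd2 : 2 ≤ D.card := by
    by_contra hcon
    push Not at hcon
    have h1 : D.card ^ 2 ≤ 1 ^ 2 := Nat.pow_le_pow_left (by omega) 2
    have h2 := hq.two_le
    omega
  have hfib : ((((Ico 1 (q ^ j)) ×ˢ (Ico 1 (q ^ j))) ×ˢ (good D q k ×ˢ good D q k)).filter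
      (fun t => t.1.2 ≤ t.1.1 ∧ t.1.1 * t.2.2 ≡ t.1.2 * t.2.1 [MOD q ^ k])).card =
      ∑ b ∈ good D q k ×ˢ good D q k, (((Ico 1 (q ^ j)) ×ˢ (Ico 1 (q ^ j))).filter
        (fun t => t.2 ≤ t.1 ∧ t.1 * b.2 ≡ t.2 * b.1 [MOD q ^ k])).card := by
    rw [card_filter, sum_product_right]
    refine sum_congr rfl fun b _ => ?_
    rw [card_filter]
  rw [hfib]
  calc _ ≤ ∑ b ∈ good D q k ×ˢ good D q k, ∑ I ∈ Ico 1 (j + 1),
        (if ∃ h h', 1 ≤ h' ∧ h' ≤ h ∧ h < q ^ I ∧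
        h * b.2 ≡ h' * b.1 [MOD q ^ k] then q ^ (j + 1 - I) else 0) := by
        refine sum_le_sum fun b hb => ?_
        have hxq : ¬ q ∣ b.1 := by
          rw [mem_product] at hb
          have := hb.1
          simp only [good, mem_filter] at this
          exact this.2.2
        exact sols_card_le q hq k j b.1 b.2 hj hxq
    _ = ∑ I ∈ Ico 1 (j + 1), ∑ b ∈ good D q k ×ˢ good D q k,
        (if ∃ h h', 1 ≤ h' ∧ h' ≤ h ∧ h < q ^ I ∧
        h * b.2 ≡ h' * b.1 [MOD q ^ k] then q ^ (j + 1 - I) else 0) := sum_comm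
    _ ≤ ∑ I ∈ Ico 1 (j + 1), 2 * D.card ^ k * (q ^ (j + 1 - I) * D.card ^ (2 * I)) := by
        refine sum_le_sum fun I hI => ?_
        rw [mem_Ico] at hI
        rw [← sum_filter, sum_const, smul_eq_mul]
        have := exists_pairs_le D q hq hd2 k I hI.1 (by omega)
        calc _ ≤ (2 * D.card ^ (k + 2 * I)) * q ^ (j + 1 - I) := Nat.mul_le_mul_right _ this
          _ = _ := by rw [pow_add]; ring
    _ = 2 * D.card ^ k * ∑ I ∈ Ico 1 (j + 1), q ^ (j + 1 - I) * D.card ^ (2 * I) := by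
        rw [mul_sum]
    _ ≤ 2 * D.card ^ k * (q * (q + 1) * D.card ^ (2 * j)) :=
        Nat.mul_le_mul_left _ (geo_sum D.card q hd j)
    _ = _ := by rw [pow_add]; ring

theorem energy_le (D : Finset ℕ) (q : ℕ) (hq : q.Prime) (hd : q + 1 ≤ D.card ^ 2)
    (k j : ℕ) (hj : 2 * j ≤ k) :
    ((((Ico 1 (q ^ j)) ×ˢ (Ico 1 (q ^ j))) ×ˢ (good D q k ×ˢ good D q k)).filter
      (fun t => t.1.1 * t.2.2 ≡ t.1.2 * t.2.1 [MOD q ^ k])).card ≤
      4 * q * (q + 1) * D.card ^ (k + 2 * j) := by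
  classical
  set A := ((((Ico 1 (q ^ j)) ×ˢ (Ico 1 (q ^ j))) ×ˢ (good D q k ×ˢ good D q k)).filter
      (fun t => t.1.2 ≤ t.1.1 ∧ t.1.1 * t.2.2 ≡ t.1.2 * t.2.1 [MOD q ^ k])) with hA
  have hAc : A.card ≤ 2 * q * (q + 1) * D.card ^ (k + 2 * j) := energy_half D q hq hd k j hj
  have hsub : (((Ico 1 (q ^ j)) ×ˢ (Ico 1 (q ^ j))) ×ˢ (good D q k ×ˢ good D q k)).filter
      (fun t => t.1.1 * t.2.2 ≡ t.1.2 * t.2.1 [MOD q ^ k]) ⊆
      A ∪ A.image (fun t => ((t.1.2, t.1.1), (t.2.2, t.2.1))) := by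
    rintro ⟨⟨h, h'⟩, ⟨x, x'⟩⟩ ht
    rw [mem_filter, mem_product, mem_product, mem_product] at ht
    obtain ⟨⟨⟨a1, a2⟩, a3, a4⟩, a5⟩ := ht
    simp only at a1 a2 a3 a4 a5
    rw [mem_union]
    rcases le_total h' h with hle | hle
    · left
      rw [hA, mem_filter]
      exact ⟨mem_product.mpr ⟨mem_product.mpr ⟨a1, a2⟩, mem_product.mpr ⟨a3, a4⟩⟩, hle, a5⟩
    · right
      rw [mem_image]
      refine ⟨((h', h), (x', x)), ?_, rfl⟩
      rw [hA, mem_filter]
      exact ⟨mem_product.mpr ⟨mem_product.mpr ⟨a2, a1⟩, mem_product.mpr ⟨a4, a3⟩⟩, hle, a5.symm⟩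
  calc _ ≤ _ := card_le_card hsub
    _ ≤ A.card + (A.image (fun t => ((t.1.2, t.1.1), (t.2.2, t.2.1)))).card := card_union_le _ _
    _ ≤ A.card + A.card := Nat.add_le_add_left card_image_le _
    _ ≤ _ := by
        have : 4 * q * (q + 1) * D.card ^ (k + 2 * j) =
          2 * (2 * q * (q + 1) * D.card ^ (k + 2 * j)) := by ring
        omega

end Pool.Agent.DP2
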