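import Mathlib
import Pool.Agent.DigitPowers.Fejer

/-! Fejér counting with one joint Cauchy-Schwarz inequality. -/

set_option autoImplicit false

namespace Pool.Agent.DP2

open Finset Complex Pool.Agent.DigitPowers

private theorem eb_card {α : Type*} (n : ℕ) [NeZero n] (P : Finset α) (φ : α → ZMod n) :
    ((P ×ˢ P).filter (fun t => φ t.1 = φ t.2)).card =
      ∑ x : ZMod n, (P.filter (fun p => φ p = x)).card ^ 2 := by
  rw [card_eq_sum_card_fiberwise (f := fun t : α × α => φ t.1) (t := (univ : Finset (ZMod n)))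
    (fun _ _ => by simp)]
  refine sum_congr rfl fun x _ => ?_
  have h1 : ((P ×ˢ P).filter (fun t => φ t.1 = φ t.2)).filter (fun t => φ t.1 = x) =
      (P.filter (fun p => φ p = x)) ×ˢ (P.filter (fun p => φ p = x)) := by
    ext t
    simp only [mem_filter, mem_product]
    constructor
    · rintro ⟨⟨⟨h1, h2⟩, h3⟩, h4⟩
      exact ⟨⟨h1, h4⟩, h2, h3 ▸ h4⟩
    · rintro ⟨⟨h1, h2⟩, h3, h4⟩
      exact ⟨⟨⟨h1, h3⟩, h2.trans h4.symm⟩, h2⟩
  rw [h1, card_product, sq]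

private theorem eb_cs {α : Type*} (n : ℕ) [NeZero n] (S : Finset (ZMod n)) (P : Finset α)
    (φ : α → ZMod n) (E : ℕ) (hE : ((P ×ˢ P).filter (fun t => φ t.1 = φ t.2)).card ≤ E) :
    ∑ p ∈ P, ‖expSum n S (φ p)‖ ≤ Real.sqrt E * Real.sqrt (n * S.card) := by
  have h1 : ∑ p ∈ P, ‖expSum n S (φ p)‖ =
      ∑ x : ZMod n, ((P.filter (fun p => φ p = x)).card : ℝ) * ‖expSum n S x‖ := by
    rw [← sum_fiberwise P φ (fun p => ‖expSum n S (φ p)‖)]
    refine sum_congr rfl fun x _ => ?_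
    rw [← nsmul_eq_mul, ← sum_const]
    refine sum_congr rfl fun p hp => ?_
    rw [(mem_filter.1 hp).2]
  have h2 : ∑ x : ZMod n, ((P.filter (fun p => φ p = x)).card : ℝ) ^ 2 ≤ E := by
    rw [eb_card] at hE
    exact_mod_cast hE
  have h3 : ∑ x : ZMod n, ‖expSum n S x‖ ^ 2 ≤ n * S.card := by
    have h4 := expSum_second_moment_le n S 1
    simpa using h4
  have h5 : (∑ p ∈ P, ‖expSum n S (φ p)‖) ^ 2 ≤ E * (n * S.card) := by
    rw [h1]
    refine (sum_mul_sq_le_sq_mul_sq _ _ _).trans ?_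
    exact mul_le_mul h2 h3 (sum_nonneg fun _ _ => by positivity) (Nat.cast_nonneg _)
  rw [← Real.sqrt_mul (Nat.cast_nonneg _)]
  exact Real.le_sqrt_of_sq_le h5

theorem count_le_energy {ι : Type*} (n : ℕ) [NeZero n] (S : Finset (ZMod n)) (U : Finset ι)
    (u : ι → (ZMod n)ˣ) (y : ι → ZMod n) (H J : ℕ) (hH : 0 < H) (hJn : J ≤ n)
    (hJ : 6 * ((H - 1) * J) ≤ n) (E : ℕ)
    (hE : ((((Ico 1 H) ×ˢ U) ×ˢ ((Ico 1 H) ×ˢ U)).filter (fun t =>
      ((t.1.1 : ℕ) : ZMod n) * (u t.2.2 : ZMod n) =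
        ((t.2.1 : ℕ) : ZMod n) * (u t.1.2 : ZMod n))).card ≤ E) :
    (∑ c ∈ U, (((range J).filter (fun j : ℕ =>
      y c + (u c : ZMod n) * (j : ZMod n) ∈ S)).card : ℝ)) ≤
      4 / H * (U.card * S.card) + 8 / H * (Real.sqrt E * Real.sqrt (n * S.card)) := by
  have hHpos : (0 : ℝ) < H := by exact_mod_cast hH
  -- per `c` bound
  have hc : ∀ c ∈ U, (((range J).filter (fun j : ℕ => y c + (u c : ZMod n) * (j : ZMod n) ∈ S)).card : ℝ) *
      ((H : ℝ) ^ 2 / 4) ≤ ∑ t ∈ range H, ∑ t' ∈ range H,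
        ‖expSum n S (((t : ZMod n) - (t' : ZMod n)) * (((u c)⁻¹ : (ZMod n)ˣ) : ZMod n))‖ := by
    intro c _
    refine le_trans ?_ (fejer_sq_expand n S H (((u c)⁻¹ : (ZMod n)ˣ) : ZMod n) (y c))
    set T := (range J).filter (fun j : ℕ => y c + (u c : ZMod n) * (j : ZMod n) ∈ S) with hT
    have hinj : Set.InjOn (fun j : ℕ => y c + (u c : ZMod n) * (j : ZMod n)) (T : Set ℕ) := by
      intro a ha b hb hab
      have ha' : a < J := by
        have := ha
        rw [hT, mem_coe, mem_filter, mem_range] at this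
        exact this.1
      have hb' : b < J := by
        have := hb
        rw [hT, mem_coe, mem_filter, mem_range] at this
        exact this.1
      have h1 : (u c : ZMod n) * (a : ZMod n) = (u c : ZMod n) * (b : ZMod n) := add_left_cancel hab
      have h2 : (a : ZMod n) = (b : ZMod n) := by
        have := congrArg (fun x => (((u c)⁻¹ : (ZMod n)ˣ) : ZMod n) * x) h1
        simpa [← mul_assoc] using this
      rw [ZMod.natCast_eq_natCast_iff'] at h2
      rwa [Nat.mod_eq_of_lt (by omega), Nat.mod_eq_of_lt (by omega)] at h2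
    have hsub : T.image (fun j : ℕ => y c + (u c : ZMod n) * (j : ZMod n)) ⊆ S := by
      intro x hx
      rw [mem_image] at hx
      obtain ⟨j, hj, rfl⟩ := hx
      rw [hT, mem_filter] at hj
      exact hj.2
    calc (T.card : ℝ) * ((H : ℝ) ^ 2 / 4) = ∑ j ∈ T, ((H : ℝ) / 2) ^ 2 := by
          rw [sum_const, nsmul_eq_mul]; ring
      _ ≤ ∑ j ∈ T, ‖∑ t ∈ range H, ZMod.stdAddChar (N := n)
            ((t : ZMod n) * ((((u c)⁻¹ : (ZMod n)ˣ) : ZMod n) *
              ((y c + (u c : ZMod n) * (j : ZMod n)) - y c)))‖ ^ 2 := by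
          refine sum_le_sum fun j hj => ?_
          have hj' : j < J := by
            rw [hT, mem_filter, mem_range] at hj
            exact hj.1
          have e1 : (((u c)⁻¹ : (ZMod n)ˣ) : ZMod n) *
              ((y c + (u c : ZMod n) * (j : ZMod n)) - y c) = (j : ZMod n) := by
            rw [add_sub_cancel_left, ← mul_assoc, Units.inv_mul, one_mul]
          rw [e1]
          exact pow_le_pow_left₀ (by positivity) (fejer_lower n H J j hJ hj') 2
      _ = ∑ z ∈ T.image (fun j : ℕ => y c + (u c : ZMod n) * (j : ZMod n)),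
            ‖∑ t ∈ range H, ZMod.stdAddChar (N := n)
            ((t : ZMod n) * ((((u c)⁻¹ : (ZMod n)ˣ) : ZMod n) * (z - y c)))‖ ^ 2 := by
          rw [sum_image hinj]
      _ ≤ _ := sum_le_sum_of_subset_of_nonneg hsub (fun _ _ _ => by positivity)
  -- fold the double sum
  have hfold : ∀ c ∈ U, ∑ t ∈ range H, ∑ t' ∈ range H,
        ‖expSum n S (((t : ZMod n) - (t' : ZMod n)) * (((u c)⁻¹ : (ZMod n)ˣ) : ZMod n))‖ ≤
      H * (S.card + 2 * ∑ h ∈ Ico 1 H,
        ‖expSum n S ((h : ZMod n) * (((u c)⁻¹ : (ZMod n)ˣ) : ZMod n))‖) := by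
    intro c _
    have : ∀ t ∈ range H, ∑ t' ∈ range H,
        ‖expSum n S (((t : ZMod n) - (t' : ZMod n)) * (((u c)⁻¹ : (ZMod n)ˣ) : ZMod n))‖ ≤
        S.card + 2 * ∑ h ∈ Ico 1 H,
        ‖expSum n S ((h : ZMod n) * (((u c)⁻¹ : (ZMod n)ˣ) : ZMod n))‖ := by
      intro t ht
      rw [mem_range] at ht
      have h1 := sum_dist_le
        (fun h => ‖expSum n S ((h : ZMod n) * (((u c)⁻¹ : (ZMod n)ˣ) : ZMod n))‖)
        (fun _ => norm_nonneg _) H t ht
      refine le_trans (le_of_eq ?_) (le_trans h1 (le_of_eq ?_))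
      · refine sum_congr rfl fun t' ht' => ?_
        by_cases hle : t' ≤ t
        · rw [if_pos hle, Nat.cast_sub hle]
        · rw [if_neg hle, Nat.cast_sub (by omega), ← norm_expSum_neg]
          congr 2
          ring
      · simp [norm_expSum_zero]
    calc _ ≤ ∑ t ∈ range H, ((S.card : ℝ) + 2 * ∑ h ∈ Ico 1 H,
        ‖expSum n S ((h : ZMod n) * (((u c)⁻¹ : (ZMod n)ˣ) : ZMod n))‖) := sum_le_sum this
      _ = _ := by rw [sum_const, card_range, nsmul_eq_mul]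
  -- sum over c
  have htot : (∑ c ∈ U, (((range J).filter (fun j : ℕ => y c + (u c : ZMod n) * (j : ZMod n) ∈ S)).card : ℝ)) *
      ((H : ℝ) ^ 2 / 4) ≤ H * (U.card * S.card) + 2 * H * ∑ h ∈ Ico 1 H, ∑ c ∈ U,
        ‖expSum n S ((h : ZMod n) * (((u c)⁻¹ : (ZMod n)ˣ) : ZMod n))‖ := by
    rw [sum_mul]
    calc _ ≤ ∑ c ∈ U, (H * ((S.card : ℝ) + 2 * ∑ h ∈ Ico 1 H,
        ‖expSum n S ((h : ZMod n) * (((u c)⁻¹ : (ZMod n)ˣ) : ZMod n))‖)) :=
          sum_le_sum fun c hcU => (hc c hcU).trans (hfold c hcU)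
      _ = _ := by
          rw [← mul_sum, sum_add_distrib, sum_const, nsmul_eq_mul, ← mul_sum, sum_comm]
          ring
  have hT : ∑ h ∈ Ico 1 H, ∑ c ∈ U,
        ‖expSum n S ((h : ZMod n) * (((u c)⁻¹ : (ZMod n)ˣ) : ZMod n))‖ ≤
      Real.sqrt E * Real.sqrt (n * S.card) := by
    have h1 := eb_cs n S ((Ico 1 H) ×ˢ U)
      (fun p : ℕ × ι => ((p.1 : ℕ) : ZMod n) * (((u p.2)⁻¹ : (ZMod n)ˣ) : ZMod n)) E ?_
    · rw [sum_product] at h1
      exact h1
    · refine le_trans (card_le_card ?_) hE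
      intro t ht
      rw [mem_filter] at ht ⊢
      refine ⟨ht.1, ?_⟩
      have h2 := ht.2
      have e1 : ((u t.2.2 : (ZMod n)ˣ) : ZMod n) * (((u t.2.2)⁻¹ : (ZMod n)ˣ) : ZMod n) = 1 :=
        Units.mul_inv _
      have e2 : ((u t.1.2 : (ZMod n)ˣ) : ZMod n) * (((u t.1.2)⁻¹ : (ZMod n)ˣ) : ZMod n) = 1 :=
        Units.mul_inv _
      calc ((t.1.1 : ℕ) : ZMod n) * (u t.2.2 : ZMod n)
          = (((t.1.1 : ℕ) : ZMod n) * (((u t.1.2)⁻¹ : (ZMod n)ˣ) : ZMod n)) *
            ((u t.1.2 : ZMod n) * (u t.2.2 : ZMod n)) := by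
            linear_combination (-(((t.1.1 : ℕ) : ZMod n) * (u t.2.2 : ZMod n))) * e2
        _ = (((t.2.1 : ℕ) : ZMod n) * (((u t.2.2)⁻¹ : (ZMod n)ˣ) : ZMod n)) *
            ((u t.1.2 : ZMod n) * (u t.2.2 : ZMod n)) := by rw [h2]
        _ = ((t.2.1 : ℕ) : ZMod n) * (u t.1.2 : ZMod n) := by
            linear_combination (((t.2.1 : ℕ) : ZMod n) * (u t.1.2 : ZMod n)) * e1
  have hfin : (∑ c ∈ U, (((range J).filter (fun j : ℕ => y c + (u c : ZMod n) * (j : ZMod n) ∈ S)).card : ℝ)) *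
      ((H : ℝ) ^ 2 / 4) ≤ (4 / H * (U.card * S.card) +
        8 / H * (Real.sqrt E * Real.sqrt (n * S.card))) * ((H : ℝ) ^ 2 / 4) := by
    refine htot.trans ?_
    have h2 := mul_le_mul_of_nonneg_left hT (by positivity : (0 : ℝ) ≤ 2 * H)
    have h3 : (4 / H * (U.card * S.card) +
        8 / H * (Real.sqrt E * Real.sqrt (n * S.card))) * ((H : ℝ) ^ 2 / 4) =
        H * (U.card * S.card) + 2 * H * (Real.sqrt E * Real.sqrt (n * S.card)) := by
      field_simp
      ring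
    rw [h3]
    linarith
  exact le_of_mul_le_mul_right hfin (by positivity)

end Pool.Agent.DP2
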