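import Mathlib
import Pool.Agent.DP2.EA
import Pool.Agent.DP2.EB

/-! Counting exponents whose power has `2 r` good low digits, energy version. -/

set_option autoImplicit false

namespace Pool.Agent.DP2

open Finset Pool.Agent.DigitPowers

/-- one residue-block estimate. -/
private theorem block_one26 (p q : ℕ) (hp : 2 ≤ p) (hq : q.Prime) (hq3 : 3 ≤ q) (hpq : ¬ q ∣ p)
    (D : Finset ℕ) (hD : q + 1 ≤ D.card ^ 2) (l J jj s : ℕ) (hjj : 2 * jj ≤ wexp p q + l)
    (hJq : J ≤ q ^ (wexp p q + l))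
    (hJ : 6 * ((q ^ jj - 1) * J) ≤ q ^ (wexp p q + l)) :
    (∑ i ∈ range (q ^ l), (((range J).filter (fun j : ℕ =>
      lowOK D q ((wexp p q + l) + (wexp p q + l))
        (p ^ ((q ^ l * s + i) + (q - 1) * q ^ l * j)))).card : ℝ)) ≤
      4 / (q : ℝ) ^ jj * ((D.card : ℝ) ^ (wexp p q + l) * (D.card : ℝ) ^ (wexp p q + l)) +
      8 / (q : ℝ) ^ jj * (Real.sqrt (4 * q * (q + 1) * (D.card : ℝ) ^ (wexp p q + l + 2 * jj)) *
        Real.sqrt ((q : ℝ) ^ (wexp p q + l) * (D.card : ℝ) ^ (wexp p q + l))) := by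
  classical
  have hr1 : 1 ≤ wexp p q + l := by
    have := wexp_pos p q hp hq hq3 hpq
    omega
  set r := wexp p q + l with hr
  have hqpos : 0 < q := hq.pos
  have : NeZero (q ^ r) := ⟨pow_ne_zero _ hq.ne_zero⟩
  obtain ⟨w, hw, hPw⟩ := exists_w p q hp hq hq3 hpq l
  rw [← hr] at hPw
  have hcop : ∀ a : ℕ, Nat.Coprime (w * p ^ a) (q ^ r) := by
    intro a
    apply Nat.Coprime.pow_right
    apply Nat.Coprime.mul_left
    · exact Nat.coprime_comm.mp ((Nat.Prime.coprime_iff_not_dvd hq).mpr hw)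
    · exact Nat.Coprime.pow_left _ (Nat.coprime_comm.mp ((Nat.Prime.coprime_iff_not_dvd hq).mpr hpq))
  set u : ℕ → (ZMod (q ^ r))ˣ := fun i => ZMod.unitOfCoprime (w * p ^ (q ^ l * s + i)) (hcop _) with hu
  set y : ℕ → ZMod (q ^ r) := fun i => ((p ^ (q ^ l * s + i) / q ^ r : ℕ) : ZMod (q ^ r)) with hy
  set S := digitRes D q r with hS
  set U := (range (q ^ l)).filter (fun i => lowOK D q r (p ^ (q ^ l * s + i))) with hU
  -- expansion of the power
  have hexp : ∀ i j : ℕ, ∃ k, p ^ ((q ^ l * s + i) + (q - 1) * q ^ l * j) =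
      p ^ (q ^ l * s + i) + q ^ r * (w * p ^ (q ^ l * s + i) * j + q ^ r * k) := by
    intro i j
    obtain ⟨k, hk⟩ := one_add_pow_expand (q ^ r * w) j
    refine ⟨p ^ (q ^ l * s + i) * w ^ 2 * k, ?_⟩
    rw [pow_add, pow_mul p ((q - 1) * q ^ l) j, hPw, hk]
    ring
  have hmodr : ∀ i j : ℕ, lowOK D q r (p ^ ((q ^ l * s + i) + (q - 1) * q ^ l * j)) ↔
      lowOK D q r (p ^ (q ^ l * s + i)) := by
    intro i j
    obtain ⟨k, hk⟩ := hexp i j
    rw [← lowOK_mod D q r _ hqpos, hk, Nat.add_mul_mod_self_left, lowOK_mod D q r _ hqpos]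
  have hdiv : ∀ i j : ℕ, ((p ^ ((q ^ l * s + i) + (q - 1) * q ^ l * j) / q ^ r : ℕ) : ZMod (q ^ r)) =
      y i + (u i : ZMod (q ^ r)) * (j : ZMod (q ^ r)) := by
    intro i j
    obtain ⟨k, hk⟩ := hexp i j
    rw [hk, Nat.add_mul_div_left _ _ (pow_pos hqpos r)]
    rw [hu, hy]
    simp only [ZMod.coe_unitOfCoprime]
    push_cast
    have : ((q : ZMod (q ^ r)) ^ r) = 0 := by
      have := ZMod.natCast_self (q ^ r)
      push_cast at this
      exact this
    rw [this]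
    ring
  have hinj : Set.InjOn u (U : Set ℕ) := by
    intro a ha b hb hab
    rw [hU, mem_coe, mem_filter, mem_range] at ha hb
    have h1 : ((w * p ^ (q ^ l * s + a) : ℕ) : ZMod (q ^ r)) =
        ((w * p ^ (q ^ l * s + b) : ℕ) : ZMod (q ^ r)) := by
      have := congrArg (fun x : (ZMod (q ^ r))ˣ => (x : ZMod (q ^ r))) hab
      simpa [hu, ZMod.coe_unitOfCoprime] using this
    have h2 : ((p ^ (q ^ l * s + a) : ℕ) : ZMod (q ^ r)) =
        ((p ^ (q ^ l * s + b) : ℕ) : ZMod (q ^ r)) := by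
      rw [ZMod.natCast_eq_natCast_iff] at h1 ⊢
      refine Nat.ModEq.cancel_left_of_coprime ?_ h1
      exact Nat.Coprime.pow_left _ ((Nat.Prime.coprime_iff_not_dvd hq).mpr hw)
    rcases lt_trichotomy a b with h | h | h
    · exact (pow_inj p q hp hq hq3 hpq l _ _ (by omega) (by omega) h2).elim
    · exact h
    · exact (pow_inj p q hp hq hq3 hpq l _ _ (by omega) (by omega) h2.symm).elim
  have hSU : U.card ≤ D.card ^ r := by
    refine le_trans ?_ (card_digitRes D q r hqpos)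
    refine card_le_card_of_injOn (fun i => ((p ^ (q ^ l * s + i) : ℕ) : ZMod (q ^ r))) ?_ ?_
    · intro i hi
      rw [hU, mem_coe, mem_filter] at hi
      rw [mem_coe]
      exact (mem_digitRes_natCast D q r _ hqpos).mpr hi.2
    · intro a ha b hb hab
      rw [hU, mem_coe, mem_filter, mem_range] at ha hb
      simp only at hab
      rcases lt_trichotomy a b with h | h | h
      · exact (pow_inj p q hp hq hq3 hpq l _ _ (by omega) (by omega) hab).elim
      · exact h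
      · exact (pow_inj p q hp hq hq3 hpq l _ _ (by omega) (by omega) hab.symm).elim
  have hScard : S.card ≤ D.card ^ r := card_digitRes D q r hqpos
  -- the energy
  have hE : ((((Ico 1 (q ^ jj)) ×ˢ U) ×ˢ ((Ico 1 (q ^ jj)) ×ˢ U)).filter (fun t =>
      ((t.1.1 : ℕ) : ZMod (q ^ r)) * (u t.2.2 : ZMod (q ^ r)) =
        ((t.2.1 : ℕ) : ZMod (q ^ r)) * (u t.1.2 : ZMod (q ^ r)))).card ≤
      4 * q * (q + 1) * D.card ^ (r + 2 * jj) := by
    refine le_trans ?_ (energy_le D q hq hD r jj hjj)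
    refine card_le_card_of_injOn (fun t : (ℕ × ℕ) × (ℕ × ℕ) =>
      ((t.1.1, t.2.1), ((p ^ (q ^ l * s + t.1.2)) % q ^ r, (p ^ (q ^ l * s + t.2.2)) % q ^ r))) ?_ ?_
    · rintro ⟨⟨h, c⟩, ⟨h', c'⟩⟩ ht
      rw [mem_coe, mem_filter, mem_product, mem_product, mem_product] at ht
      obtain ⟨⟨⟨h1, h2⟩, h3, h4⟩, h5⟩ := ht
      simp only at h1 h2 h3 h4 h5
      have hgood : ∀ c ∈ U, (p ^ (q ^ l * s + c)) % q ^ r ∈ good D q r := by
        intro c hc
        rw [hU, mem_filter] at hc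
        rw [good, mem_filter, mem_range]
        refine ⟨Nat.mod_lt _ (pow_pos hqpos r), (lowOK_mod D q r _ hqpos).2 hc.2, ?_⟩
        rw [Nat.dvd_mod_iff (dvd_pow_self q (by omega))]
        exact fun h6 => hpq (hq.dvd_of_dvd_pow h6)
      rw [mem_coe, mem_filter, mem_product, mem_product, mem_product]
      refine ⟨⟨⟨h1, h3⟩, hgood c h2, hgood c' h4⟩, ?_⟩
      change h * (p ^ (q ^ l * s + c') % q ^ r) ≡ h' * (p ^ (q ^ l * s + c) % q ^ r) [MOD q ^ r]
      have h6 : ((h * (w * p ^ (q ^ l * s + c')) : ℕ) : ZMod (q ^ r)) =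
          ((h' * (w * p ^ (q ^ l * s + c)) : ℕ) : ZMod (q ^ r)) := by
        have h7 := h5
        simp only [hu, ZMod.coe_unitOfCoprime] at h7
        push_cast at h7 ⊢
        exact h7
      rw [ZMod.natCast_eq_natCast_iff] at h6
      have h8 : w * (h * p ^ (q ^ l * s + c')) ≡ w * (h' * p ^ (q ^ l * s + c)) [MOD q ^ r] := by
        have e1 : w * (h * p ^ (q ^ l * s + c')) = h * (w * p ^ (q ^ l * s + c')) := by ring
        have e2 : w * (h' * p ^ (q ^ l * s + c)) = h' * (w * p ^ (q ^ l * s + c)) := by ring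
        rw [e1, e2]
        exact h6
      have h9 : h * p ^ (q ^ l * s + c') ≡ h' * p ^ (q ^ l * s + c) [MOD q ^ r] := by
        refine Nat.ModEq.cancel_left_of_coprime ?_ h8
        exact Nat.Coprime.pow_left _ ((Nat.Prime.coprime_iff_not_dvd hq).mpr hw)
      exact ((Nat.mod_modEq _ _).mul_left h).trans (h9.trans ((Nat.mod_modEq _ _).mul_left h').symm)
    · rintro ⟨⟨h, c⟩, ⟨h', c'⟩⟩ ht ⟨⟨g, b⟩, ⟨g', b'⟩⟩ ht' heq
      rw [mem_coe, mem_filter, mem_product, mem_product, mem_product] at ht ht'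
      obtain ⟨⟨⟨-, h2⟩, -, h4⟩, -⟩ := ht
      obtain ⟨⟨⟨-, g2⟩, -, g4⟩, -⟩ := ht'
      simp only at h2 h4 g2 g4
      simp only [Prod.mk.injEq] at heq
      obtain ⟨⟨e1, e2⟩, e3, e4⟩ := heq
      have hpinj : ∀ a ∈ U, ∀ b ∈ U, p ^ (q ^ l * s + a) % q ^ r = p ^ (q ^ l * s + b) % q ^ r →
          a = b := by
        intro a ha b hb hab
        rw [hU, mem_filter, mem_range] at ha hb
        have h2 : ((p ^ (q ^ l * s + a) : ℕ) : ZMod (q ^ r)) =
            ((p ^ (q ^ l * s + b) : ℕ) : ZMod (q ^ r)) := by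
          rw [ZMod.natCast_eq_natCast_iff]
          exact hab
        rcases lt_trichotomy a b with h | h | h
        · exact (pow_inj p q hp hq hq3 hpq l _ _ (by omega) (by omega) h2).elim
        · exact h
        · exact (pow_inj p q hp hq hq3 hpq l _ _ (by omega) (by omega) h2.symm).elim
      rw [e1, e2, hpinj c h2 b g2 e3, hpinj c' h4 b' g4 e4]
  -- reduce to `count_le_energy`
  have hHpos' : 0 < q ^ jj := pow_pos hqpos jj
  have hmain := count_le_energy (q ^ r) S U u y (q ^ jj) J hHpos' hJq hJ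
    (4 * q * (q + 1) * D.card ^ (r + 2 * jj)) hE
  have hred : (∑ i ∈ range (q ^ l), (((range J).filter (fun j : ℕ =>
      lowOK D q (r + r) (p ^ ((q ^ l * s + i) + (q - 1) * q ^ l * j)))).card : ℝ)) ≤
      ∑ i ∈ U, (((range J).filter (fun j : ℕ => y i + (u i : ZMod (q ^ r)) * (j : ZMod (q ^ r)) ∈ S)).card : ℝ) := by
    rw [hU, sum_filter]
    refine sum_le_sum fun i _ => ?_
    split_ifs with hlow
    · have : ((range J).filter (fun j : ℕ =>
          lowOK D q (r + r) (p ^ ((q ^ l * s + i) + (q - 1) * q ^ l * j)))) ⊆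
          ((range J).filter (fun j : ℕ => y i + (u i : ZMod (q ^ r)) * (j : ZMod (q ^ r)) ∈ S)) := by
        intro j hj
        rw [mem_filter] at hj ⊢
        refine ⟨hj.1, ?_⟩
        rw [← hdiv i j, hS, mem_digitRes_natCast D q r _ hqpos]
        exact ((lowOK_add D q r r _).mp hj.2).2
      exact_mod_cast card_le_card this
    · have : ((range J).filter (fun j : ℕ =>
          lowOK D q (r + r) (p ^ ((q ^ l * s + i) + (q - 1) * q ^ l * j)))) = ∅ := by
        rw [filter_eq_empty_iff]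
        intro j _ hcon
        exact hlow ((hmodr i j).mp ((lowOK_add D q r r _).mp hcon).1)
      rw [this]; simp
  refine hred.trans (hmain.trans ?_)
  have hU' : (U.card : ℝ) ≤ (D.card : ℝ) ^ r := by exact_mod_cast hSU
  have hS' : (S.card : ℝ) ≤ (D.card : ℝ) ^ r := by exact_mod_cast hScard
  have hqR : (0 : ℝ) < q := by exact_mod_cast hqpos
  have hHpos : (0 : ℝ) < (q : ℝ) ^ jj := by positivity
  have e1 : 4 / (q : ℝ) ^ jj * (U.card * S.card) ≤
      4 / (q : ℝ) ^ jj * ((D.card : ℝ) ^ r * (D.card : ℝ) ^ r) := by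
    gcongr
  have e0 : ((4 * q * (q + 1) * D.card ^ (r + 2 * jj) : ℕ) : ℝ) =
      4 * q * (q + 1) * (D.card : ℝ) ^ (r + 2 * jj) := by push_cast; ring
  have e2 : 8 / (q : ℝ) ^ jj * (Real.sqrt (4 * q * (q + 1) * (D.card : ℝ) ^ (r + 2 * jj)) *
      Real.sqrt (((q ^ r : ℕ) : ℝ) * S.card)) ≤
      8 / (q : ℝ) ^ jj * (Real.sqrt (4 * q * (q + 1) * (D.card : ℝ) ^ (r + 2 * jj)) *
        Real.sqrt ((q : ℝ) ^ r * (D.card : ℝ) ^ r)) := by
    have e3 : (((q ^ r : ℕ) : ℝ) * S.card) ≤ (q : ℝ) ^ r * (D.card : ℝ) ^ r := by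
      push_cast
      gcongr
    have e5 := Real.sqrt_le_sqrt e3
    have e6 := Real.sqrt_nonneg (4 * q * (q + 1) * (D.card : ℝ) ^ (r + 2 * jj))
    gcongr
  have e7 : ((q ^ jj : ℕ) : ℝ) = (q : ℝ) ^ jj := by push_cast; ring
  rw [e0, e7]
  linarith

/-- adapt `block_count_one` + `block_count` of `DigitPowers/Block.lean`. -/
theorem block_count_energy (p q : ℕ) (hp : 2 ≤ p) (hq : q.Prime) (hq3 : 3 ≤ q) (hpq : ¬ q ∣ p)
    (D : Finset ℕ) (hD : q + 1 ≤ D.card ^ 2) (l J j : ℕ) (hj : 2 * j ≤ wexp p q + l)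
    (hJq : J ≤ q ^ (wexp p q + l)) (hJ : 6 * ((q ^ j - 1) * J) ≤ q ^ (wexp p q + l)) :
    (((range ((q - 1) * q ^ l * J)).filter (fun n =>
      lowOK D q ((wexp p q + l) + (wexp p q + l)) (p ^ n))).card : ℝ) ≤
      q * (4 / (q : ℝ) ^ j * ((D.card : ℝ) ^ (wexp p q + l) * (D.card : ℝ) ^ (wexp p q + l)) +
      8 / (q : ℝ) ^ j * (Real.sqrt (4 * q * (q + 1) * (D.card : ℝ) ^ (wexp p q + l + 2 * j)) *
        Real.sqrt ((q : ℝ) ^ (wexp p q + l) * (D.card : ℝ) ^ (wexp p q + l)))) := by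
  classical
  set r := wexp p q + l with hr
  set B := 4 / (q : ℝ) ^ j * ((D.card : ℝ) ^ r * (D.card : ℝ) ^ r) +
      8 / (q : ℝ) ^ j * (Real.sqrt (4 * q * (q + 1) * (D.card : ℝ) ^ (r + 2 * j)) *
        Real.sqrt ((q : ℝ) ^ r * (D.card : ℝ) ^ r)) with hB
  have hB0 : 0 ≤ B := by positivity
  set L := (q - 1) * q ^ l with hL
  have hLpos : 0 < L := Nat.mul_pos (by omega) (pow_pos hq.pos l)
  have h1 : (((range (L * J)).filter (fun n => lowOK D q (r + r) (p ^ n))).card : ℝ) =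
      ∑ a ∈ range L, ∑ j ∈ range J, (if lowOK D q (r + r) (p ^ (a + L * j)) then (1 : ℝ) else 0) := by
    rw [sum_comm]
    have := sum_range_mul_block (fun n => if lowOK D q (r + r) (p ^ n) then (1 : ℝ) else 0) J L
    rw [mul_comm J L] at this
    rw [card_filter]
    push_cast
    rw [this]
    refine sum_congr rfl fun j _ => sum_congr rfl fun a _ => ?_
    rw [add_comm (L * j) a]
  have h2 : ∑ a ∈ range L, ∑ j ∈ range J, (if lowOK D q (r + r) (p ^ (a + L * j)) then (1 : ℝ) else 0) =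
      ∑ s ∈ range (q - 1), ∑ i ∈ range (q ^ l), (((range J).filter (fun j : ℕ =>
        lowOK D q (r + r) (p ^ ((q ^ l * s + i) + (q - 1) * q ^ l * j)))).card : ℝ) := by
    rw [hL, sum_range_mul_block]
    refine sum_congr rfl fun s _ => sum_congr rfl fun i _ => ?_
    rw [card_filter]
    push_cast
    rfl
  rw [h1, h2]
  calc _ ≤ ∑ s ∈ range (q - 1), B := by
        refine sum_le_sum fun s _ => ?_
        exact block_one26 p q hp hq hq3 hpq D hD l J j s hj hJq hJ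
    _ = (q - 1 : ℕ) * B := by rw [sum_const, card_range, nsmul_eq_mul]
    _ ≤ q * B := by
        refine mul_le_mul_of_nonneg_right ?_ hB0
        exact_mod_cast Nat.sub_le q 1

end Pool.Agent.DP2
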