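import Mathlib
import Pool.Agent.DigitPowers.Final
import Pool.Agent.DP2.EC

/-! Missing digits in powers: the exponent `(4α² - 2α + 1)/(2α + 1)`. -/

set_option autoImplicit false

namespace Pool.Agent.DP2

open Finset Pool.Agent.DigitPowers

/-- the bound for one block, simplified -/
private theorem ed_block (Q d s κ α rho : ℝ) (r j : ℕ) (hQ : 3 ≤ Q) (hd0 : 0 < d) (hs0 : 0 < s)
    (hss : s * s = Q) (hdα : d = Q ^ α) (hsα : s = Q ^ (1 / 2 : ℝ)) (hα1 : α ≤ 1)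
    (hα0 : 1 / 2 ≤ α) (hκα : κ * α = α - 1 / 2)
    (hrho : rho = Q ^ (2 * α - κ)) (hj : κ * r - 3 ≤ j) :
    Q * (4 / Q ^ j * (d ^ r * d ^ r) +
      8 / Q ^ j * (Real.sqrt (4 * Q * (Q + 1) * d ^ (r + 2 * j)) *
        Real.sqrt (Q ^ r * d ^ r))) ≤ Q * (4 * Q ^ 3 + 16 * (Q + 1) * Q ^ 3) * rho ^ r := by
  have hQ0 : 0 < Q := by linarith
  have hQ1 : 1 ≤ Q := by linarith
  have hrhor : rho ^ r = Q ^ ((2 * α - κ) * r) := by
    rw [hrho, ← Real.rpow_natCast, ← Real.rpow_mul hQ0.le]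
  have hdr : ∀ m : ℕ, d ^ m = Q ^ (α * m) := by
    intro m
    rw [hdα, ← Real.rpow_natCast, ← Real.rpow_mul hQ0.le]
  have hsr : s ^ r = Q ^ (1 / 2 * (r : ℝ)) := by
    rw [hsα, ← Real.rpow_natCast, ← Real.rpow_mul hQ0.le]
  have hQj : ∀ m : ℕ, Q ^ m = Q ^ ((m : ℝ)) := fun m => (Real.rpow_natCast Q m).symm
  -- the first term
  have h1 : 4 / Q ^ j * (d ^ r * d ^ r) ≤ 4 * Q ^ 3 * rho ^ r := by
    have e1 : 4 / Q ^ j * (d ^ r * d ^ r) = 4 * Q ^ (α * r + α * r - (j : ℝ)) := by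
      rw [Real.rpow_sub hQ0, Real.rpow_add hQ0, ← hdr, ← hQj]
      ring
    have e2 : 4 * Q ^ 3 * rho ^ r = 4 * Q ^ (3 + (2 * α - κ) * r) := by
      rw [Real.rpow_add hQ0, ← hrhor]
      have : Q ^ (3 : ℝ) = Q ^ 3 := by
        rw [← Real.rpow_natCast]; norm_num
      rw [this]
      ring
    rw [e1, e2]
    apply mul_le_mul_of_nonneg_left _ (by norm_num)
    apply Real.rpow_le_rpow_of_exponent_le hQ1
    nlinarith
  -- the second term
  have h2 : Real.sqrt (4 * Q * (Q + 1) * d ^ (r + 2 * j)) * Real.sqrt (Q ^ r * d ^ r) ≤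
      2 * (Q + 1) * (d ^ (r + j) * s ^ r) := by
    rw [← Real.sqrt_mul (by positivity)]
    apply Real.sqrt_le_iff.mpr
    refine ⟨by positivity, ?_⟩
    have e1 : (2 * (Q + 1) * (d ^ (r + j) * s ^ r)) ^ 2 =
        4 * (Q + 1) * (Q + 1) * (d ^ (r + 2 * j) * (Q ^ r * d ^ r)) := by
      rw [← hss]
      ring
    rw [e1]
    have e2 : 4 * Q * (Q + 1) * d ^ (r + 2 * j) * (Q ^ r * d ^ r) =
        4 * Q * (Q + 1) * (d ^ (r + 2 * j) * (Q ^ r * d ^ r)) := by ring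
    rw [e2]
    apply mul_le_mul_of_nonneg_right _ (by positivity)
    nlinarith
  have h3 : 8 / Q ^ j * (2 * (Q + 1) * (d ^ (r + j) * s ^ r)) ≤
      16 * (Q + 1) * Q ^ 3 * rho ^ r := by
    have e1 : 8 / Q ^ j * (2 * (Q + 1) * (d ^ (r + j) * s ^ r)) =
        16 * (Q + 1) * Q ^ (α * ((r + j : ℕ) : ℝ) + 1 / 2 * (r : ℝ) - (j : ℝ)) := by
      rw [Real.rpow_sub hQ0, Real.rpow_add hQ0, ← hdr, ← hsr, ← hQj]
      ring
    have e2 : 16 * (Q + 1) * Q ^ 3 * rho ^ r =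
        16 * (Q + 1) * Q ^ (3 + (2 * α - κ) * r) := by
      rw [Real.rpow_add hQ0, ← hrhor]
      have : Q ^ (3 : ℝ) = Q ^ 3 := by
        rw [← Real.rpow_natCast]; norm_num
      rw [this]
      ring
    rw [e1, e2]
    apply mul_le_mul_of_nonneg_left _ (by positivity)
    apply Real.rpow_le_rpow_of_exponent_le hQ1
    push_cast
    -- `(α - 1) j ≤ (α - 1)(κ r - 3)`
    have h4 : (1 - α) * (κ * r - 3) ≤ (1 - α) * j :=
      mul_le_mul_of_nonneg_left hj (by linarith)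
    have h5 : (1 - α) * (κ * r - 3) = κ * r - (α - 1 / 2) * r - 3 * (1 - α) := by
      have : α * (κ * r) = (α - 1 / 2) * r := by rw [← hκα]; ring
      linear_combination (-1) * this
    nlinarith
  have h6 : 0 ≤ 8 / Q ^ j := by positivity
  have h7 := mul_le_mul_of_nonneg_left h2 h6
  have h8 : 4 / Q ^ j * (d ^ r * d ^ r) +
      8 / Q ^ j * (Real.sqrt (4 * Q * (Q + 1) * d ^ (r + 2 * j)) *
        Real.sqrt (Q ^ r * d ^ r)) ≤ (4 * Q ^ 3 + 16 * (Q + 1) * Q ^ 3) * rho ^ r := by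
    linarith
  have h9 := mul_le_mul_of_nonneg_left h8 hQ0.le
  linarith

/-- adapt `missing_count` of `DigitPowers/Final.lean`. -/
theorem missing_count_energy (p q : ℕ) (hp : 2 ≤ p) (hq : q.Prime) (hq3 : 3 ≤ q) (hpq : ¬ q ∣ p)
    (D : Finset ℕ) (hDq : D.card ≤ q) (hD : q ≤ D.card ^ 2) :
    ∃ C : ℝ, ∀ N : ℕ, (((range N).filter (fun n => (Nat.digits q (p ^ n)).toFinset ⊆ D)).card : ℝ) ≤
      C * (N : ℝ) ^ ((4 * Real.logb q D.card ^ 2 - 2 * Real.logb q D.card + 1) /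
        (2 * Real.logb q D.card + 1)) := by
  classical
  obtain ⟨Q, hQd⟩ : ∃ Q : ℝ, Q = (q : ℝ) := ⟨_, rfl⟩
  obtain ⟨d, hd⟩ : ∃ d : ℝ, d = (D.card : ℝ) := ⟨_, rfl⟩
  rw [← hQd, ← hd]
  obtain ⟨α, hα⟩ : ∃ α : ℝ, α = Real.logb Q d := ⟨_, rfl⟩
  rw [← hα]
  have hq0 : 0 < Q := by rw [hQd]; exact_mod_cast hq.pos
  have hQ3 : 3 ≤ Q := by rw [hQd]; exact_mod_cast hq3
  have hQ1 : 1 < Q := by linarith
  have hD1 : q + 1 ≤ D.card ^ 2 := by
    rcases hD.eq_or_lt with h | h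
    · exfalso
      rw [h, sq] at hq
      exact hq.not_isSquare ⟨_, rfl⟩
    · exact h
  have hd2 : (2 : ℝ) ≤ d := by
    have : 2 ≤ D.card := by
      by_contra hcon
      push Not at hcon
      have : D.card ^ 2 ≤ 1 ^ 2 := Nat.pow_le_pow_left (by omega) 2
      omega
    rw [hd]; exact_mod_cast this
  have hd0 : 0 < d := by linarith
  have hdq : d ≤ Q := by rw [hd, hQd]; exact_mod_cast hDq
  have hqd : Q ≤ d ^ 2 := by rw [hd, hQd]; exact_mod_cast hD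
  obtain ⟨s, hs⟩ : ∃ s : ℝ, s = Real.sqrt Q := ⟨_, rfl⟩
  have hs0 : 0 < s := by rw [hs]; exact Real.sqrt_pos.mpr hq0
  have hss : s * s = Q := by rw [hs]; exact Real.mul_self_sqrt hq0.le
  have hsα : s = Q ^ (1 / 2 : ℝ) := by rw [hs, Real.sqrt_eq_rpow]
  have hsd : s ≤ d := by
    rw [hs]; exact Real.sqrt_le_iff.mpr ⟨hd0.le, hqd⟩
  have hdα : d = Q ^ α := by rw [hα, Real.rpow_logb hq0 hQ1.ne' hd0]
  have hα1 : α ≤ 1 := by
    rw [hα, Real.logb_le_iff_le_rpow hQ1 hd0, Real.rpow_one]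
    exact hdq
  have hα0 : 1 / 2 ≤ α := by
    rw [hα, Real.le_logb_iff_rpow_le hQ1 hd0, ← hsα]
    exact hsd
  have hαpos : 0 < α := by linarith
  obtain ⟨κ, hκ⟩ : ∃ κ : ℝ, κ = (2 * α - 1) / (2 * α) := ⟨_, rfl⟩
  have hκα : κ * α = α - 1 / 2 := by
    rw [hκ]; field_simp
  have hκ0 : 0 ≤ κ := by rw [hκ]; apply div_nonneg <;> linarith
  have hκ1 : κ ≤ 1 / 2 := by
    rw [hκ, div_le_iff₀ (by linarith)]
    linarith
  have hρ1 : 1 ≤ 2 * α - κ := by
    have h1 : 0 ≤ κ * (2 * α - 1) := mul_nonneg hκ0 (by linarith)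
    linarith
  obtain ⟨γ, hγ⟩ : ∃ γ : ℝ, γ = (4 * α ^ 2 - 2 * α + 1) / (2 * α + 1) := ⟨_, rfl⟩
  rw [← hγ]
  have hγκ : (2 - κ) * γ = 2 * α - κ := by
    rw [hγ, hκ]
    field_simp
    ring
  have hγ0 : 0 < γ := by
    rw [hγ]
    apply div_pos _ (by linarith)
    nlinarith
  obtain ⟨lam, hlam⟩ : ∃ lam : ℝ, lam = Q ^ (2 - κ) := ⟨_, rfl⟩
  obtain ⟨rho, hrho⟩ : ∃ rho : ℝ, rho = Q ^ (2 * α - κ) := ⟨_, rfl⟩
  have hlam0 : 0 < lam := by rw [hlam]; positivity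
  have hrho0 : 0 < rho := by rw [hrho]; positivity
  have hlam1 : 1 < lam := by
    rw [hlam]
    exact Real.one_lt_rpow hQ1 (by linarith)
  have hrho2 : 2 ≤ rho := by
    have h1 : Q ^ (1 : ℝ) ≤ rho := by
      rw [hrho]
      exact Real.rpow_le_rpow_of_exponent_le hQ1.le hρ1
    rw [Real.rpow_one] at h1
    linarith
  have hpowγ : lam ^ γ = rho := by
    rw [hlam, hrho, ← Real.rpow_mul hq0.le, hγκ]
  obtain ⟨e, he⟩ : ∃ e : ℕ, e = wexp p q := ⟨_, rfl⟩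
  have he1 : 1 ≤ e := by rw [he]; exact wexp_pos p q hp hq hq3 hpq
  obtain ⟨K, hK⟩ : ∃ K : ℝ, K = Q * (4 * Q ^ 3 + 16 * (Q + 1) * Q ^ 3) + 2 * Q := ⟨_, rfl⟩
  have hK0 : 0 < K := by rw [hK]; positivity
  refine ⟨K * rho ^ e * (lam * (2 * Q ^ e)) ^ γ, fun N => ?_⟩
  rcases Nat.eq_zero_or_pos N with hN | hN
  · subst hN
    rw [Nat.cast_zero, Real.zero_rpow hγ0.ne']
    simp
  have hN1 : (1 : ℝ) ≤ N := by exact_mod_cast hN
  obtain ⟨X, hX⟩ : ∃ X : ℝ, X = 2 * Q ^ e * N := ⟨_, rfl⟩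
  have hqe : (1 : ℝ) ≤ Q ^ e := one_le_pow₀ hQ1.le
  have hX1 : 1 ≤ X := by
    rw [hX]
    have t1 : (1 : ℝ) ≤ Q ^ e * N := one_le_mul_of_one_le_of_one_le hqe hN1
    linarith only [t1]
  obtain ⟨n0, hn0, hn1⟩ := exists_nat_pow_near hX1 hlam1
  obtain ⟨l, hl⟩ : ∃ l : ℕ, l = n0 + 1 := ⟨_, rfl⟩
  have hlX : X ≤ lam ^ l := by rw [hl]; exact hn1.le
  have hlX' : lam ^ l ≤ lam * X := by
    rw [hl, pow_succ, mul_comm]
    exact mul_le_mul_of_nonneg_left hn0 hlam0.le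
  obtain ⟨r, hr⟩ : ∃ r : ℕ, r = e + l := ⟨_, rfl⟩
  have hr2 : 2 ≤ r := by omega
  have hqr : (0 : ℝ) < Q ^ r := by positivity
  obtain ⟨L, hL⟩ : ∃ L : ℕ, L = (q - 1) * q ^ l := ⟨_, rfl⟩
  have hLpos : 0 < L := by rw [hL]; exact Nat.mul_pos (by omega) (pow_pos hq.pos l)
  obtain ⟨J, hJ⟩ : ∃ J : ℕ, J = N / L + 1 := ⟨_, rfl⟩
  have hLJ : N ≤ L * J := by
    have := Nat.lt_mul_div_succ N hLpos
    rw [hJ]
    exact this.le
  -- real bound on J
  have hLreal : 2 * Q ^ l ≤ L := by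
    rw [hL]; push_cast
    have : (2 : ℝ) ≤ ((q - 1 : ℕ) : ℝ) := by
      have : 2 ≤ q - 1 := by omega
      exact_mod_cast this
    rw [hQd]
    exact mul_le_mul_of_nonneg_right this (by positivity)
  have hJreal : (J : ℝ) ≤ (lam / Q) ^ r / 4 + 1 := by
    have h1 : ((N / L : ℕ) : ℝ) ≤ (N : ℝ) / L := Nat.cast_div_le
    have h2 : (N : ℝ) / L ≤ (lam / Q) ^ r / 4 := by
      have h3 : (N : ℝ) ≤ lam ^ l / (2 * Q ^ e) := by
        rw [le_div_iff₀ (by positivity)]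
        calc (N : ℝ) * (2 * Q ^ e) = X := by rw [hX]; ring
          _ ≤ _ := hlX
      have h4 : (N : ℝ) / L ≤ (lam ^ l / (2 * Q ^ e)) / (2 * Q ^ l) := by
        gcongr
      have h5 : lam ^ l ≤ lam ^ r := pow_le_pow_right₀ hlam1.le (by omega)
      calc (N : ℝ) / L ≤ (lam ^ l / (2 * Q ^ e)) / (2 * Q ^ l) := h4
        _ = lam ^ l / Q ^ r / 4 := by
            rw [hr, pow_add]; field_simp; ring
        _ ≤ lam ^ r / Q ^ r / 4 := by gcongr
        _ = (lam / Q) ^ r / 4 := by rw [div_pow lam]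
    rw [hJ]; push_cast
    linarith
  have hlamQ : (lam / Q) ^ r = Q ^ ((1 - κ) * r) := by
    have h1 : lam / Q = Q ^ (1 - κ) := by
      rw [hlam]
      have h2 : Q ^ (2 - κ) = Q ^ (1 - κ) * Q := by
        have h3 : Q ^ (2 - κ) = Q ^ ((1 - κ) + 1) := by congr 1; ring
        rw [h3, Real.rpow_add_one hq0.ne']
      rw [h2]
      field_simp
    rw [h1, ← Real.rpow_natCast, ← Real.rpow_mul hq0.le]
  have hprod : Q ^ (κ * r) * (lam / Q) ^ r = Q ^ r := by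
    rw [hlamQ, ← Real.rpow_add hq0, ← Real.rpow_natCast]
    congr 1
    ring
  have hκr0 : 0 ≤ κ * r := by positivity
  have hκr1 : 1 ≤ Q ^ (κ * r) := Real.one_le_rpow hQ1.le hκr0
  have hlamQr : (lam / Q) ^ r ≤ Q ^ r := by
    rw [← hprod]
    exact le_mul_of_one_le_left (by positivity) hκr1
  have hQr3 : (3 : ℝ) ≤ Q ^ r := by
    calc (3 : ℝ) ≤ Q ^ 1 := by rw [pow_one]; linarith
      _ ≤ Q ^ r := pow_le_pow_right₀ hQ1.le (by omega)
  have hJq : J ≤ q ^ r := by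
    have h3 : (J : ℝ) ≤ Q ^ r := by linarith
    rw [hQd] at h3
    exact_mod_cast h3
  -- the interval
  obtain ⟨j, hj⟩ : ∃ j : ℕ, j = ⌊κ * r⌋₊ - 2 := ⟨_, rfl⟩
  have hfl1 : (⌊κ * r⌋₊ : ℝ) ≤ κ * r := Nat.floor_le hκr0
  have hfl2 : κ * r < ⌊κ * r⌋₊ + 1 := Nat.lt_floor_add_one _
  have hj3 : κ * r - 3 ≤ j := by
    have h1 : ⌊κ * r⌋₊ ≤ j + 2 := by omega
    have h2 : (⌊κ * r⌋₊ : ℝ) ≤ j + 2 := by exact_mod_cast h1
    linarith
  have hj2 : 2 * j ≤ r := by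
    have h1 : j ≤ ⌊κ * r⌋₊ := by omega
    have h2 : (j : ℝ) ≤ κ * r := le_trans (by exact_mod_cast h1) hfl1
    have h3 : κ * r ≤ 1 / 2 * r := mul_le_mul_of_nonneg_right hκ1 (Nat.cast_nonneg _)
    have h4 : (2 : ℝ) * j ≤ r := by linarith
    exact_mod_cast h4
  have hjJ : 6 * ((q ^ j - 1) * J) ≤ q ^ r := by
    rcases Nat.eq_zero_or_pos j with h0 | h0
    · rw [h0, pow_zero]
      simp
    · have h1 : j + 2 ≤ ⌊κ * r⌋₊ := by omega
      have h2 : ((j + 2 : ℕ) : ℝ) ≤ κ * r := le_trans (by exact_mod_cast h1) hfl1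
      have h3 : Q ^ (j + 2) ≤ Q ^ (κ * r) := by
        rw [← Real.rpow_natCast]
        exact Real.rpow_le_rpow_of_exponent_le hQ1.le h2
      have h4 : 9 * Q ^ j ≤ Q ^ (κ * r) := by
        refine le_trans ?_ h3
        rw [pow_add, mul_comm]
        apply mul_le_mul_of_nonneg_left _ (by positivity)
        nlinarith
      have h5 : ((q ^ j - 1 : ℕ) : ℝ) ≤ Q ^ j := by
        rw [hQd]
        exact_mod_cast Nat.sub_le _ _
      have h6 : Q ^ j * J ≤ Q ^ r / 6 := by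
        calc Q ^ j * J ≤ (Q ^ (κ * r) / 9) * ((lam / Q) ^ r / 4 + 1) := by
              apply mul_le_mul _ hJreal (Nat.cast_nonneg _) (by positivity)
              linarith
          _ = Q ^ r / 36 + Q ^ (κ * r) / 9 := by
              rw [← hprod]; ring
          _ ≤ Q ^ r / 36 + Q ^ r / 9 := by
              have h7 : Q ^ (κ * r) ≤ Q ^ r := by
                rw [← Real.rpow_natCast]
                apply Real.rpow_le_rpow_of_exponent_le hQ1.le
                have : (0 : ℝ) ≤ r := Nat.cast_nonneg r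
                nlinarith
              linarith
          _ ≤ Q ^ r / 6 := by linarith
      have h8 : ((q ^ j - 1 : ℕ) : ℝ) * J ≤ Q ^ r / 6 :=
        (mul_le_mul_of_nonneg_right h5 (Nat.cast_nonneg _)).trans h6
      have h9 : (6 : ℝ) * (((q ^ j - 1 : ℕ) : ℝ) * J) ≤ (q : ℝ) ^ r := by
        rw [← hQd]
        linarith
      exact_mod_cast h9
  have hblock := block_count_energy p q hp hq hq3 hpq D hD1 l J j
    (by rw [← he, ← hr]; exact hj2) (by rw [← he, ← hr]; exact hJq)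
    (by rw [← he, ← hr]; exact hjJ)
  rw [← he, ← hr, ← hL, ← hd, ← hQd] at hblock
  have hB := ed_block Q d s κ α rho r j hQ3 hd0 hs0 hss hdα hsα hα1 hα0 hκα hrho hj3
  -- split the count
  have hsplit : ((range N).filter (fun n => (Nat.digits q (p ^ n)).toFinset ⊆ D)) ⊆
      ((range (L * J)).filter (fun n => lowOK D q (r + r) (p ^ n))) ∪
      ((range N).filter (fun n => p ^ n < q ^ (r + r))) := by
    intro n hn
    rw [mem_filter, mem_range] at hn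
    rw [mem_union, mem_filter, mem_filter, mem_range, mem_range]
    by_cases hlt : p ^ n < q ^ (r + r)
    · right; exact ⟨hn.1, hlt⟩
    · left
      push Not at hlt
      exact ⟨by omega, lowOK_of_digits D q _ _ (by omega) hlt hn.2⟩
  have hcard := (card_le_card hsplit).trans (card_union_le _ _)
  have hsmall := small_exponents p q (r + r) N hp
  have hfin : (((range N).filter (fun n => (Nat.digits q (p ^ n)).toFinset ⊆ D)).card : ℝ) ≤
      K * rho ^ r := by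
    have h1 : (((range N).filter (fun n => (Nat.digits q (p ^ n)).toFinset ⊆ D)).card : ℝ) ≤
        (((range (L * J)).filter (fun n => lowOK D q (r + r) (p ^ n))).card : ℝ) +
        ((q * (r + r) : ℕ) : ℝ) := by
      have : ((range N).filter (fun n => (Nat.digits q (p ^ n)).toFinset ⊆ D)).card ≤
        ((range (L * J)).filter (fun n => lowOK D q (r + r) (p ^ n))).card + q * (r + r) := by
        omega
      exact_mod_cast this
    have h2 : ((q * (r + r) : ℕ) : ℝ) ≤ 2 * Q * rho ^ r := by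
      push_cast
      rw [← hQd]
      have h3 : (r : ℝ) ≤ rho ^ r := by
        calc (r : ℝ) ≤ 2 ^ r := by exact_mod_cast (Nat.lt_two_pow_self).le
          _ ≤ rho ^ r := pow_le_pow_left₀ (by norm_num) hrho2 r
      calc Q * ((r : ℝ) + r) = 2 * Q * r := by ring
        _ ≤ 2 * Q * rho ^ r := by gcongr
    have h4 := hblock.trans hB
    rw [hK, add_mul]
    linarith only [h1, h2, h4]
  -- conclude
  calc (((range N).filter (fun n => (Nat.digits q (p ^ n)).toFinset ⊆ D)).card : ℝ)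
      ≤ K * rho ^ r := hfin
    _ = K * rho ^ e * rho ^ l := by rw [hr, pow_add]; ring
    _ = K * rho ^ e * (lam ^ l) ^ γ := by
        rw [← hpowγ]
        congr 1
        rw [← Real.rpow_natCast, ← Real.rpow_natCast, ← Real.rpow_mul hlam0.le,
          ← Real.rpow_mul hlam0.le, mul_comm]
    _ ≤ K * rho ^ e * (lam * X) ^ γ := by
        gcongr
    _ = K * rho ^ e * (lam * (2 * Q ^ e)) ^ γ * (N : ℝ) ^ γ := by
        rw [hX, show lam * (2 * Q ^ e * N) = (lam * (2 * Q ^ e)) * N by ring,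
          Real.mul_rpow (by positivity) (by positivity)]
        ring

end Pool.Agent.DP2
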